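import Pool.Agent.Helper68.EP.St5

/-!
# Project EP (MP_cb927e_an), module XH: from chords to hits
-/

set_option autoImplicit false

open MeasureTheory Set Filter Topology
open scoped ENNReal RealInnerProductSpace

namespace Pool.Agent.Helper4.EP

open Pool.Agent.Helper68.EP
open Pool.Agent.Helper68.LM (Pl BB Bd Av HL ft fm DQ)
open Pool.Agent.Helper20.RG
open Pool.Agent.Helper20.RL (RQ Rich BM Fml Hit)

theorem rich_mono {F : Set Pl} {s : ℝ} {a b : ℤ} {θ θ' : ℝ} {y : Pl} (hθ : θ' ≤ θ)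
    (h : Rich F s a b θ y) : Rich F s a b θ' y := by
  unfold Rich at h ⊢
  refine le_trans (ENNReal.ofReal_le_ofReal ?_) h
  exact mul_le_mul_of_nonneg_right hθ (by positivity)

theorem hXH (hLGY : Pool.Agent.Helper20.RL.StLGY) (hEFB : StEFB) (hEVF : StEVF) (hXW : StXW) :
    StXH := by
  intro P Δ ct u j i k E x hSy hOk hj hE hY
  obtain ⟨hth, hu1, hqq, huq, hden⟩ := hOk
  set θ : ℝ := (2 : ℝ) ^ (-((i : ℤ) + 6)) with hθdef
  set η : ℝ := (2 : ℝ) ^ (-((i : ℤ) + 1)) with hηdef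
  have hηpos : 0 < η := by positivity
  have hθη : η = 32 * θ := by
    rw [hηdef, hθdef]
    have h1 : (-((i : ℤ) + 1)) = 5 + (-((i : ℤ) + 6)) := by ring
    rw [h1, zpow_add₀ (by norm_num : (2 : ℝ) ≠ 0)]
    norm_num
  have hs : |Δ.sl u j| ≤ 1 := hSy.slope u j hu1 hj
  obtain ⟨hfl1, hfl2⟩ := hSy.flat u j hu1 hj
  have hFE : BM (Fo P u k (q0 P u) E) := (hEFB.1 E (DD P u) (k - 2 ^ q0 P u)).2.2 hE
  obtain ⟨y, hy, hy0, hy1⟩ := hLGY (Δ.sl u j) (ct u j) (Δ.fl u j) u k (Fo P u k (q0 P u) E) η x hs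
    hfl1 hFE hηpos hY
  have hyr : Rich (Fo P u k (q0 P u) E) (Δ.sl u j) (k - (u : ℤ)) (k - (Δ.fl u j : ℤ)) θ y := by
    refine rich_mono ?_ hy
    rw [hθη]
    linarith [hth.1]
  have huq' : (u : ℤ) ≤ 2 ^ q0 P u := by
    have h1 : u ≤ 2 ^ q0 P u := by omega
    exact_mod_cast h1
  have hDD : 0 < DD P u := by
    unfold DD; positivity
  have hlt : k - (Δ.fl u j : ℤ) < k - 2 ^ q0 P u := by
    by_contra hcon
    push Not at hcon
    have h4 : θ ≤ 4 * DD P u := by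
      refine hXW (Fo P u k (q0 P u) E) (Δ.sl u j) (k - (u : ℤ)) (k - 2 ^ q0 P u)
        (k - (Δ.fl u j : ℤ)) (DD P u) θ y hs (by linarith) hcon hDD.le ?_ hyr
      intro y' b' hb'
      exact hEFB.2.2.2.2 E (DD P u) (k - 2 ^ q0 P u) b' y' hb'
    have het : et P u (q0 P u) ≤ 1 := by
      unfold et
      refine zpow_le_one_of_nonpos₀ (by norm_num) ?_
      have h5 : (q0 P u : ℤ) < (q1 P u : ℤ) := by exact_mod_cast hqq.2
      linarith
    have h6 : et P u (q0 P u) * θ ≤ 1 * θ := mul_le_mul_of_nonneg_right het hth.1.le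
    linarith
  have hW : k - (Δ.fl u j : ℤ) ∈ Wc P Δ u j k θ E y := ⟨le_refl _, hlt.le, hyr⟩
  have hV : y ∈ Vc P Δ u j k θ E := ⟨_, hW⟩
  have hB : k - (Δ.fl u j : ℤ) ≤ Bc P Δ u j k θ E y :=
    ((hEVF P Δ u j k θ E hE hth.1).1 y hV).2.1 _ hW
  refine ⟨y, hV, hy0, le_trans hy1 ?_⟩
  have h7 : (2 : ℝ) ^ (k - (Δ.fl u j : ℤ)) ≤ (2 : ℝ) ^ (Bc P Δ u j k θ E y) :=
    zpow_le_zpow_right₀ (by norm_num) hB
  linarith

end Pool.Agent.Helper4.EP
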